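import Pool.Agent.H418R2.ChipFinal

set_option autoImplicit false

/-!
The chip-firing halting problem for simple digraphs is NP-hard (under polynomial-time many-one
reductions, polynomial time being Mathlib's Turing machine notion), even when restricted to strongly
connected digraphs and nonnegative distributions.
-/

namespace Pool.Agent.Results.MP_85a811_lc.HaltingNPHard

open Pool.Agent.NPC Pool.Agent.H418R2.Chip

/-- NP-hardness of the halting problem for simple digraphs; also restricted to strongly connected
digraphs and nonnegative numbers of chips. -/
theorem result : NPHardP Halting ∧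
    NPHardP (fun I : Inst => Halting I ∧ StronglyConnected I.adj ∧ ∀ v, 0 ≤ I.chips v) := by
  refine ⟨hardPr_halting.toHardI.toNPHardP, HardI.toNPHardP ?_⟩
  intro L hL
  obtain ⟨f, hf, hpr, hfL⟩ := hardPr_halting L hL
  exact ⟨f, hf, fun x => (hfL x).trans ⟨fun h => ⟨h, hpr x⟩, fun h => h.1⟩⟩

end Pool.Agent.Results.MP_85a811_lc.HaltingNPHard
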